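import Pool.Agent.D0H39.NG.Fin

/-!
# MP_3dbb84_gt, Q1: exact Lagrangian submanifolds without folds, for every closed manifold

Q1 asks whether every closed exact Lagrangian submanifold `L` of the cotangent bundle of a closed
connected manifold `N` is the image of the zero section under a symplectic diffeomorphism.  The
theorem settles this, for all `N`, for the `L` whose vertical tangencies have signs.

The manifold `N` is a submanifold of `ℝ^m` (every closed manifold is), and `T*N` is identified with
the tangent bundle `CT N ⊆ ℝ^m × ℝ^m` by the induced metric; then the canonical one-form is
`⟪p, dq⟫`, and the symplectic form is the restriction of `dp ∧ dq`.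

Signs: near a vertical tangency `z` the tangent vectors of `L` satisfy
`σ(z) ⟪B dq, dp⟫ ≥ -C ‖dq‖²` with a locally constant `σ = ±1`, for a smooth field `B` of symmetric
matrices which is nondegenerate on the vertical tangent vectors (for instance `B = 1`).  More
generally `σ B` may be replaced by the fibrewise second derivative `K_pp` of any smooth function
`K` on the cotangent bundle.  The vertical tangencies may be of any corank and may form arbitrary
closed sets, for instance `L` may contain open pieces of the fibres, and nothing is assumed about
the projection `L → N` elsewhere.  Folds are excluded.

Proof.  The flow of the Hamiltonian `K` (cut off near infinity) makes `L` transverse to the fibres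
after a short time.  The maximum principle for the difference of the values of a primitive at two
points in the same fibre shows that the new submanifold meets every fibre once, so it is the graph
of a closed one-form, which is moved to the zero section by a translation of the fibres.
-/

set_option autoImplicit false
set_option maxHeartbeats 400000

namespace Pool.Agent.Results.MP_3dbb84_gt.AllManifoldsWithoutFolds

open Pool.Agent.D0H39.NG

/-- Let `N ⊆ ℝ^m` be a closed connected manifold of dimension `k`, and let `Λ` be a closed exact
Lagrangian submanifold of its cotangent bundle.
(1) If the vertical tangencies of `Λ` have signs with respect to a smooth field `B` of symmetric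
matrices, then `Λ` is the image of the zero section under a symplectic diffeomorphism of `T*N`.
(2) The same holds if there is a twisting function `K` for `Λ`. -/
theorem result (m k : ℕ) (N : Set (E m)) (hN : IsClosedMfd k N) (Λ : Set (E m × E m))
    (hΛ : IsLag k N Λ) (hf : ∃ f, IsPrimitive Λ f) :
    (∀ B, IsSymmetricField B → HasSigns N Λ B → IsImageOfZero N Λ) ∧
    (∀ K, IsTwisting N Λ K → IsImageOfZero N Λ) := by
  obtain ⟨f, hf⟩ := hf
  exact ⟨fun _ hB hS => (signs_image hN hΛ hf hB hS).zero,
    fun _ hK => (twist_image hN hΛ hf hK).zero⟩

end Pool.Agent.Results.MP_3dbb84_gt.AllManifoldsWithoutFolds
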