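import Pool.Agent.D0H39.NG.Fin3

/-!
# MP_3dbb84_gt, Q1: exact Lagrangian submanifolds with folds and a gap in the slopes

Q1 asks whether every closed exact Lagrangian submanifold `L` of the cotangent bundle of a closed
connected manifold `N` is the image of the zero section under a symplectic diffeomorphism.  The
theorem settles this, for every `N`, for `L` with arbitrary folds and caustics, if there is a gap in
the slopes of `L`.

The manifold `N` is a submanifold of `ℝ^m` (every closed manifold is), and `T*N` is identified with
the tangent bundle `CT N ⊆ ℝ^m × ℝ^m` by the induced metric; then the canonical one-form is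
`⟪p, dq⟫`, and the symplectic form is the restriction of `dp ∧ dq`.

Conditions.  Let `B` be a smooth field of symmetric matrices (for instance `B = 1`) and `δ > 0`.
There is a `c > 0`, which depends only on `N`, `B` and `δ`, such that `L` is the image of the zero
section if at some scale `ρ > 0`:
* `|p| ≤ c ρ` on `L` (this holds for every `L` if `ρ` is large);
* the tangent spaces of `L` stay away from the Lagrangian planes `ρ dq = -B dp`: for every tangent
  vector `(dq, dp)` of `L` the tangential part of `ρ dq + B dp` has norm at least
  `δ (ρ |dq| + |dp|)`.

For `B = 1` the second condition says that no tangent space of `L` contains a vector whose slope is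
close to `-ρ`.  Nothing is assumed about the vertical tangencies (slope infinity), or about the
topology of `L`.

Proof.  At the scale `ρ` the submanifold `L` is close to the zero section.  Let `φ` be the time-one
map of the Hamiltonian `⟪B p, p⟫ / 2`, cut off away from the zero section.  Along the zero section
`φ` is the identity, and its differential is the shear `(dq, dp) ↦ (dq + B dp, dp)` of the tangent
spaces of `T*N`, since the linear part of the Hamiltonian field there has the square zero.  By
compactness the differential is close to the shear near the zero section, uniformly, so the gap
shows that `φ(L)` has no vertical tangencies.  Then `φ(L)` is an exact section, which is the image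
of the zero section.
-/

set_option autoImplicit false
set_option maxHeartbeats 400000

namespace Pool.Agent.Results.MP_3dbb84_gt.LagrangiansWithFolds

open Pool.Agent.D0H39.NG

/-- Let `N ⊆ ℝ^m` be a closed connected manifold of dimension `k`, let `B` be a smooth field of
symmetric matrices, and let `δ > 0`.  There is a `c > 0` such that every closed exact Lagrangian
submanifold `Λ` of the cotangent bundle of `N` with `|p| ≤ c ρ` on `Λ` for a `ρ > 0`, whose tangent
spaces stay `δ`-away from the Lagrangian planes `ρ dq = -B dp`, is the image of the zero section
under a symplectic diffeomorphism of `T*N`. -/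
theorem result (m k : ℕ) (N : Set (E m)) (hN : IsClosedMfd k N) (B : E m → E m →L[ℝ] E m)
    (hB : IsSymmetricField B) (δ : ℝ) (hδ : 0 < δ) :
    ∃ c : ℝ, 0 < c ∧ ∀ (Λ : Set (E m × E m)) (ρ : ℝ), 0 < ρ → IsLag k N Λ →
      (∃ f, IsPrimitive Λ f) → (∀ z ∈ Λ, ‖z.2‖ ≤ c * ρ) → HasGap N Λ B ρ δ →
      IsImageOfZero N Λ :=
  folds_image hN hB hδ

end Pool.Agent.Results.MP_3dbb84_gt.LagrangiansWithFolds
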