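import Pool.Agent.D0H39.NG.Fin2

/-!
# MP_3dbb84_gt, Q1: exact Lagrangian submanifolds with small or locally injective caustics

Q1 asks whether every closed exact Lagrangian submanifold `L` of the cotangent bundle of a closed
connected manifold `N` is the image of the zero section under a symplectic diffeomorphism.  The
theorem settles this, for every `N`, for the `L` whose vertical tangencies (the points at which the
tangent space of `L` contains a vertical vector) are small, or do not destroy the local injectivity
of the projection `L → N`.

The manifold `N` is a submanifold of `ℝ^m` (every closed manifold is), and `T*N` is identified with
the tangent bundle `CT N ⊆ ℝ^m × ℝ^m` by the induced metric; then the canonical one-form is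
`⟪p, dq⟫`, and the symplectic form is the restriction of `dp ∧ dq`.

Conditions.  Each vertical tangency `z` is simple (the tangent space of `L` meets the vertical space
in dimension one) or semidefinite (near `z` the form `⟪dq, dp⟫` is, up to a sign and a multiple of
`‖dq‖²`, nonnegative on the tangent spaces of `L`); and near `z` either `L` meets every fibre at most
once, or the vertical tangencies do not separate `L` (for instance if they are isolated, or form a
submanifold of `L` of codimension at least two).  No sign is assumed at a simple tangency, and
nothing is assumed about the projection `L → N` away from the vertical tangencies, or about the
topology of `L`.  Folds are excluded.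

Proof.  In cotangent coordinates at `z` the submanifold `L` is a graph over its tangent space at
`z`.  At a simple tangency the Hessian of its generating function in the vertical direction is a
function `h`, which vanishes exactly at the vertical tangencies.  If these do not separate `L`, then
`h` has a constant sign; if the projection is injective, then the partial derivatives of the
generating function are strictly monotone in the vertical direction, of a locally constant kind,
which again gives a sign.  So `ε ⟪dq, dp⟫ ≥ -C ‖dq‖²` on the tangent spaces of `L` near `z`, the
signs `ε` are locally constant on the set of vertical tangencies, and the theorem on submanifolds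
whose vertical tangencies have signs applies.
-/

set_option autoImplicit false
set_option maxHeartbeats 400000

namespace Pool.Agent.Results.MP_3dbb84_gt.SmallCaustics

open Pool.Agent.D0H39.NG

/-- Let `N ⊆ ℝ^m` be a closed connected manifold of dimension `k`, and let `Λ` be a closed exact
Lagrangian submanifold of its cotangent bundle.  If each vertical tangency of `Λ` is simple or
semidefinite, and near it either `Λ` meets every fibre at most once or the vertical tangencies do
not separate `Λ`, then `Λ` is the image of the zero section under a symplectic diffeomorphism of
`T*N`. -/
theorem result (m k : ℕ) (N : Set (E m)) (hN : IsClosedMfd k N) (Λ : Set (E m × E m))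
    (hΛ : IsLag k N Λ) (hf : ∃ f, IsPrimitive Λ f)
    (h : ∀ z ∈ Λ, IsVertical Λ z → (IsSimpleAt Λ z ∨ IsSemidefiniteAt Λ z) ∧
      (IsInjectiveAt Λ z ∨ IsThinAt Λ z)) : IsImageOfZero N Λ := by
  obtain ⟨f, hf⟩ := hf
  exact caustic_image hN hΛ hf h

end Pool.Agent.Results.MP_3dbb84_gt.SmallCaustics
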