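import Pool.Agent.D0H39.NL.Shear

/-!
# MP_3dbb84_gt, Q1, for tori: Lagrangian submanifolds with folds

Q1 asks whether every closed exact Lagrangian submanifold `L` of the cotangent bundle of a closed
connected manifold `N` is the image of the zero section under a symplectic diffeomorphism.  The
theorem settles this for `N = Tⁿ = ℝⁿ/ℤⁿ`, `n` arbitrary, and for the closed Lagrangian submanifolds
`L` (exact or connected, of any size) for which there is a smooth function `k` on `ℝⁿ` such that the
tangencies of `L` with the Lagrangian plane field `dq = -D²k(p) dp` are absent or have signs, or do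
not destroy the local injectivity of the projection along the leaves `{(x - ∇k(p), p)}`.  If `k ≠ 0`,
the projection `L → Tⁿ` may have folds and other caustics.  With `k = 0` the conditions are on the
vertical tangencies and on the projection `L → Tⁿ`.  With quadratic `k`, part (1) says: the Gauss map
of an `L` which is not the image of the zero section meets the Maslov cycle of each Lagrangian plane
`dq = -A dp`, `A` a symmetric matrix.

A submanifold `L` of `T*Tⁿ` is given by its preimage `Λ` in `ℝⁿ × ℝⁿ`.

Proof.  The shear `(q, p) ↦ (q + ∇k(p), p)` is a symplectic diffeomorphism of `T*Tⁿ` which takes the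
plane field to the vertical one, and `L` to `L_k`.  The signs of the vertical tangencies of `L_k` are
extended to a smooth function on `T*Tⁿ`, and the flow with the generating function `t K`,
`K = ± ½ ⟪B p, p⟫` near the vertical tangencies, makes `L_k` transverse to the fibres.  The image is
a covering of the torus whose sheets are graphs of closed forms, and the maximum principle for the
difference of two sheets shows that there is only one sheet.  In (3) the signs (for `B = 1`) are
proved by a local analysis at the vertical tangencies.  In (4) (one point in each fibre, no
connectedness) the local signs are glued to a function on the torus, and the theorem of the starting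
files on one-sided Lagrangian submanifolds applies.
-/

set_option autoImplicit false
set_option maxHeartbeats 400000

open scoped ContDiff RealInnerProductSpace

namespace Pool.Agent.Results.MP_3dbb84_gt.TorusLagrangiansWithFolds

open Pool.Agent.D0H39.NL

/-- Let `Λ` be (the preimage in `ℝⁿ × ℝⁿ` of) a closed Lagrangian submanifold of the cotangent
bundle of the torus `ℝⁿ/ℤⁿ`, let `k` be a smooth function on `ℝⁿ`, and let
`Λ_k = {(q + ∇k(p), p)}` be the sheared submanifold.

If `Λ` is connected or exact, then it is the image of the zero section under a symplectic
diffeomorphism in each of the following cases: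
(1) no tangent vector `(dq, dp) ≠ 0` of `Λ` at a point `(q, p)` satisfies `dq = -D²k(p) dp`;
(2) the vertical tangencies of `Λ_k` have signs with respect to a smooth field of symmetric
matrices on the torus;
(3) the vertical tangencies of `Λ_k` are simple or semidefinite, and every point of `Λ_k` has a
neighbourhood in `Λ_k` which meets every fibre in at most one point.

(4) The same holds if `Λ` is not assumed to be connected or exact, but the vertical tangencies of
`Λ_k` are simple or semidefinite and `Λ_k` meets every fibre in at most one point. -/
theorem result (n : ℕ) (Λ : Set (E n × E n)) (hΛ : IsLagrangianLift n Λ) (k : E n → ℝ)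
    (hk : ContDiff ℝ ∞ k) :
    ((IsConnectedLift Λ ∨ ∃ f, IsPrimitive Λ f) →
      ((∀ z ∈ Λ, ∀ a, IsTangent Λ z a → a.1 = - fderiv ℝ (gradient k) z.2 a.2 → a = 0) ∨
        (∃ B, IsSymmetricField B ∧ HasSigns (shear k '' Λ) B) ∨
        ((∀ z ∈ shear k '' Λ,
            IsSimpleAt (shear k '' Λ) z ∨ IsSemidefiniteAt (shear k '' Λ) z) ∧
          ∀ z ∈ shear k '' Λ, IsInjectiveAt (shear k '' Λ) z)) → IsImage Λ) ∧
    ((∀ z ∈ shear k '' Λ, IsSimpleAt (shear k '' Λ) z ∨ IsSemidefiniteAt (shear k '' Λ) z) →
      (∀ z ∈ shear k '' Λ, ∀ w ∈ shear k '' Λ, z.1 = w.1 → z = w) → IsImage Λ) :=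
  ⟨fun hc h => folds_image hΛ hk hc h, fun h1 h2 => folds_part hΛ hk h1 h2⟩

end Pool.Agent.Results.MP_3dbb84_gt.TorusLagrangiansWithFolds
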